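import Pool.Agent.TH703.HU.Stm
import Pool.Agent.TH73.MI.Basic

/-!
# Project HU, statement B7: `n`-dimensional extinction near a vertex
-/

set_option autoImplicit false

open MeasureTheory Set Metric Filter Topology
open scoped ENNReal Real

namespace Pool.Agent.TH805.HU

open Pool.Agent.TH304.MI Pool.Agent.TH703.HU Pool.Agent.TH73.MI

/-- the part over a disc is open -/
lemma isOpen_dk {b : ℕ} (c : ℂ) (t : ℝ) : IsOpen {p : PP b | ‖xc p - c‖ < t} :=
  isOpen_lt ((continuous_xc.sub continuous_const).norm) continuous_const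

lemma norm_sc_le {b : ℕ} {ε : ℝ} (h0 : 0 < ε) (h1 : ε ≤ 1) (q : PP b) :
    ‖sc ε q‖ ≤ ‖sc 1 q‖ := by
  rw [EuclideanSpace.norm_eq, EuclideanSpace.norm_eq]
  refine Real.sqrt_le_sqrt (Finset.sum_le_sum fun i _ => ?_)
  have h2 : ‖sc ε q i‖ ≤ ‖sc 1 q i‖ := by
    change ‖(if (i : ℕ) < 2 then q i else ε * q i)‖ ≤ ‖(if (i : ℕ) < 2 then q i else 1 * q i)‖
    split_ifs with h
    · exact le_rfl
    · rw [norm_mul, norm_mul, norm_one, Real.norm_of_nonneg h0.le]
      exact mul_le_mul_of_nonneg_right h1 (norm_nonneg _)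
  exact pow_le_pow_left₀ (norm_nonneg _) h2 2

lemma fld_of_one {b : ℕ} {ε : ℝ} (h0 : 0 < ε) (h1 : ε ≤ 1) {Ω : Set (PP b)} {φ : PP b → PP b}
    (h : Fld 1 Ω φ) : Fld ε Ω φ :=
  ⟨h.cd, h.cs, h.sub, fun x => (norm_sc_le h0 h1 _).trans (h.bd x)⟩

lemma ple_one {b : ℕ} {ε : ℝ} (h0 : 0 < ε) (h1 : ε ≤ 1) {Ω G : Set (PP b)} {C : ℝ}
    (h : PLe ε Ω G C) : PLe 1 Ω G C := fun φ hφ => h φ (fld_of_one h0 h1 hφ)

lemma fld_zero {b : ℕ} (ε : ℝ) (Ω : Set (PP b)) : Fld ε Ω (0 : PP b → PP b) := by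
  refine ⟨contDiff_const, HasCompactSupport.zero, ?_, fun x => ?_⟩
  · rw [tsupport_eq_empty_iff.2 rfl]
    exact empty_subset _
  · have h : sc ε ((0 : PP b → PP b) x) = 0 := by
      ext i
      change (if (i : ℕ) < 2 then (0 : ℝ) else ε * 0) = 0
      split_ifs <;> simp
    rw [h, norm_zero]
    exact zero_le_one

lemma ple_nonneg {b : ℕ} {ε : ℝ} {Ω G : Set (PP b)} {C : ℝ}
    (h : PLe ε Ω G C) : 0 ≤ C := by
  have h1 := h 0 (fld_zero ε Ω)
  have h2 : ∀ x, dv (0 : PP b → PP b) x = 0 := by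
    intro x
    unfold dv
    have : fderiv ℝ (0 : PP b → PP b) x = 0 := by
      have := fderiv_const_apply (𝕜 := ℝ) (x := x) (0 : PP b)
      exact this
    rw [this]
    simp
  simp only [h2, integral_zero] at h1
  exact h1

/-- planar annuli -/
lemma vol_ann (c : ℂ) {s t : ℝ} (hs : 0 ≤ s) (hst : s ≤ t) :
    volume (ball c t \ ball c s) = ENNReal.ofReal (π * (t ^ 2 - s ^ 2)) := by
  rw [measure_sdiff (ball_subset_ball hst) measurableSet_ball.nullMeasurableSet
    measure_ball_lt_top.ne, Complex.volume_ball, Complex.volume_ball]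
  have ht : 0 ≤ t := hs.trans hst
  have h1 : ∀ r : ℝ, 0 ≤ r → ENNReal.ofReal r ^ 2 * (NNReal.pi : ℝ≥0∞)
      = ENNReal.ofReal (π * r ^ 2) := by
    intro r hr
    rw [mul_comm π, ENNReal.ofReal_mul (by positivity), ENNReal.ofReal_pow hr]
    congr 1
    exact (ENNReal.ofReal_coe_nnreal (p := NNReal.pi)).symm
  rw [h1 t ht, h1 s hs, ← ENNReal.ofReal_sub _ (by positivity)]
  congr 1
  ring

/-- the volume of the part of a bounded set over an annulus -/
lemma vol_over_ann (b : ℕ) {Ω : Set (PP b)} (hb : Bornology.IsBounded Ω) (c : ℂ) (R : ℝ)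
    (hR : 0 < R) : ∃ K : ℝ, 0 ≤ K ∧ ∀ s t : ℝ, 0 ≤ s → s ≤ t → t ≤ R →
      volume.real (Ω ∩ ({p | ‖xc p - c‖ < t} \ {p | ‖xc p - c‖ < s})) ≤ K * (t - s) := by
  obtain ⟨e, he, hmp⟩ := t_fub b
  obtain ⟨M, hM⟩ := hb.subset_closedBall 0
  set B : Set (Fin b → ℝ) := Set.pi univ fun _ : Fin b => Icc (-M) M with hB
  have hBm : MeasurableSet B := MeasurableSet.univ_pi fun _ => measurableSet_Icc
  have hBf : volume B ≠ ∞ := by
    rw [hB, volume_pi_pi]
    exact (ENNReal.prod_lt_top fun i _ => measure_Icc_lt_top).ne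
  refine ⟨2 * π * R * (volume B).toReal, by positivity, fun s t hs hst htR => ?_⟩
  have hsub : Ω ∩ ({p | ‖xc p - c‖ < t} \ {p | ‖xc p - c‖ < s})
      ⊆ e ⁻¹' ((ball c t \ ball c s) ×ˢ B) := by
    rintro p ⟨hp, hp1, hp2⟩
    rw [mem_preimage, he p]
    refine ⟨⟨?_, ?_⟩, ?_⟩
    · rw [mem_ball, dist_eq_norm]; exact hp1
    · rw [mem_ball, dist_eq_norm]; exact hp2
    · rw [hB, mem_univ_pi]
      intro i
      have h1 : ‖p‖ ≤ M := by
        have := hM hp
        rwa [mem_closedBall_zero_iff] at this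
      have h2 : |yc p i| ≤ M := by
        have h3 := PiLp.norm_apply_le p i.succ.succ
        exact h3.trans h1
      exact abs_le.1 h2
  have hv : volume (e ⁻¹' ((ball c t \ ball c s) ×ˢ B))
      = ENNReal.ofReal (π * (t ^ 2 - s ^ 2)) * volume B := by
    rw [hmp.measure_preimage
      ((measurableSet_ball.diff measurableSet_ball).prod hBm).nullMeasurableSet,
      Measure.volume_eq_prod, Measure.prod_prod, vol_ann c hs hst]
  have hpos : 0 ≤ π * (t ^ 2 - s ^ 2) := by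
    have : s ^ 2 ≤ t ^ 2 := pow_le_pow_left₀ hs hst 2
    have := Real.pi_pos
    apply mul_nonneg this.le
    linarith
  have h4 : volume.real (Ω ∩ ({p | ‖xc p - c‖ < t} \ {p | ‖xc p - c‖ < s}))
      ≤ volume.real (e ⁻¹' ((ball c t \ ball c s) ×ˢ B)) := by
    refine measureReal_mono hsub ?_
    rw [hv]
    exact ENNReal.mul_ne_top ENNReal.ofReal_ne_top hBf
  refine h4.trans ?_
  rw [Measure.real, hv, ENNReal.toReal_mul, ENNReal.toReal_ofReal hpos]
  have h5 : π * (t ^ 2 - s ^ 2) ≤ 2 * π * R * (t - s) := by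
    have h6 : t ^ 2 - s ^ 2 = (t + s) * (t - s) := by ring
    rw [h6]
    have h7 : (t + s) * (t - s) ≤ (2 * R) * (t - s) :=
      mul_le_mul_of_nonneg_right (by linarith) (by linarith)
    have := Real.pi_pos
    nlinarith
  have h8 : 0 ≤ (volume B).toReal := ENNReal.toReal_nonneg
  nlinarith [mul_le_mul_of_nonneg_right h5 h8]

theorem b7 (b5 : S_B5) (b6 : S_B6) (c10 : S_C10) : S_B7 := by
  intro b Ω hO hC hB hne Λ v R c hΛ hR
  obtain ⟨c0, ω0, hc0, hω0, hiso⟩ := b6 b Ω hO hC hB hne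
  obtain ⟨K, hK0, hK⟩ := vol_over_ann b hB c R hR
  set θ : ℝ := ((b : ℝ) + 1) / ((b : ℝ) + 2) with hθ
  have hb0 : (0 : ℝ) ≤ b := Nat.cast_nonneg b
  have hθ0 : 0 < θ := by positivity
  have hθ1 : θ < 1 := by
    rw [hθ, div_lt_one (by positivity)]
    linarith
  set η : ℝ := 1 - θ with hη
  have hη0 : 0 < η := by linarith
  set τ : ℝ := min (c0 / 2 / (Λ + 1)) (η * c0 * (R - R / 2) / 8) with hτ
  have hR2 : 0 < R - R / 2 := by linarith
  have hτ0 : 0 < τ := lt_min (by positivity) (by positivity)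
  refine ⟨min ω0 (τ ^ (1 / η)), lt_min hω0 (Real.rpow_pos_of_pos hτ0 _), ?_⟩
  intro ε F hε0 hε1 hF hFω
  have hΩf : volume Ω ≠ ∞ := hB.measure_lt_top.ne
  set g : ℝ → ℝ := fun t => volume.real (F ∩ {p | ‖xc p - c‖ < t}) with hg
  have hgf : ∀ t, volume (F ∩ {p | ‖xc p - c‖ < t}) ≠ ∞ := fun t =>
    (measure_mono (inter_subset_left.trans hF.sub)).trans_lt hB.measure_lt_top |>.ne
  have hg0 : ∀ t, 0 ≤ g t := fun t => measureReal_nonneg
  have hmono : Monotone g := by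
    intro s t hst
    exact measureReal_mono (inter_subset_inter_right _ fun p hp => lt_of_lt_of_le hp hst) (hgf t)
  have hdif : ∀ s t : ℝ, 0 ≤ s → s ≤ t → t ≤ R → g t - g s ≤ K * (t - s) := by
    intro s t hs hst ht
    refine le_trans ?_ (hK s t hs hst ht)
    have h1 : F ∩ {p | ‖xc p - c‖ < t} ⊆ (F ∩ {p | ‖xc p - c‖ < s}) ∪
        (Ω ∩ ({p | ‖xc p - c‖ < t} \ {p | ‖xc p - c‖ < s})) := by
      rintro p ⟨hp, hp1⟩
      by_cases h : ‖xc p - c‖ < s
      · exact Or.inl ⟨hp, h⟩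
      · exact Or.inr ⟨hF.sub hp, hp1, h⟩
    have h2 : g t ≤ volume.real ((F ∩ {p | ‖xc p - c‖ < s}) ∪
        (Ω ∩ ({p | ‖xc p - c‖ < t} \ {p | ‖xc p - c‖ < s}))) := by
      refine measureReal_mono h1 ?_
      refine ((measure_mono (union_subset (inter_subset_left.trans hF.sub)
        inter_subset_left)).trans_lt hB.measure_lt_top).ne
    have h3 := measureReal_union_le (μ := (volume : Measure (PP b)))
      (F ∩ {p | ‖xc p - c‖ < s}) (Ω ∩ ({p | ‖xc p - c‖ < t} \ {p | ‖xc p - c‖ < s}))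
    have h4 : volume.real (F ∩ {p | ‖xc p - c‖ < s}) = g s := rfl
    linarith
  have hgR : g R ≤ min ω0 (τ ^ (1 / η)) := hFω
  have hgRη : g R ^ η ≤ τ := by
    have h1 : g R ^ η ≤ (τ ^ (1 / η)) ^ η :=
      Real.rpow_le_rpow (hg0 R) (hgR.trans (min_le_right _ _)) hη0.le
    have h2 : (τ ^ (1 / η)) ^ η = τ := by
      rw [← Real.rpow_mul hτ0.le, one_div, inv_mul_cancel₀ hη0.ne', Real.rpow_one]
    rwa [h2] at h1
  have hfin : g (R / 2) = 0 := by
    refine c10 g (R / 2) R c0 θ Λ K (by linarith) (hmono.monotoneOn _) ?_ (fun t _ => hg0 t) hc0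
      hθ0 hθ1 hΛ ?_ ?_ ?_
    · intro s hs t ht
      rcases le_total s t with h | h
      · rw [abs_sub_comm, abs_of_nonneg (sub_nonneg.2 (hmono h)), abs_sub_comm s t,
          abs_of_nonneg (sub_nonneg.2 h)]
        exact hdif s t (by linarith [hs.1]) h ht.2
      · rw [abs_of_nonneg (sub_nonneg.2 (hmono h)), abs_of_nonneg (sub_nonneg.2 h)]
        exact hdif t s (by linarith [ht.1]) h hs.2
    · intro t ht d hd
      have h5 := b5 b ε Ω Λ v F hε0 hO hB hΛ hF c t d (by linarith [ht.1]) hd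
      have h6 := ple_nonneg h5
      refine hiso _ _ (hF.meas.inter (isOpen_dk c t).measurableSet)
        (inter_subset_left.trans hF.sub) ?_ h6 (ple_one hε0 hε1 h5)
      have h7 : g t ≤ g R := hmono ht.2.le
      exact h7.trans (hgR.trans (min_le_left _ _))
    · have h8 : Λ * g R ^ η ≤ Λ * (c0 / 2 / (Λ + 1)) :=
        mul_le_mul_of_nonneg_left (hgRη.trans (min_le_left _ _)) hΛ
      refine h8.trans ?_
      have h9 : Λ * (c0 / 2 / (Λ + 1)) = c0 / 2 * (Λ / (Λ + 1)) := by ring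
      rw [h9]
      have h10 : Λ / (Λ + 1) ≤ 1 := by
        rw [div_le_one (by linarith)]
        linarith
      nlinarith
    · have h11 : g R ^ η ≤ η * c0 * (R - R / 2) / 8 := hgRη.trans (min_le_right _ _)
      have h12 : 0 < η * c0 * (R - R / 2) := by positivity
      change g R ^ η < η * c0 * (R - R / 2) / 4
      linarith
  have hz : (volume (F ∩ {p | ‖xc p - c‖ < R / 2})).toReal = 0 := hfin
  rcases (ENNReal.toReal_eq_zero_iff _).1 hz with h | h
  · exact h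
  · exact absurd h (hgf _)

end Pool.Agent.TH805.HU
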